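import Pool.Agent.H8.DI.Targets

/-!
# Module SU: successor relations by counting
-/

set_option autoImplicit false

namespace Pool.Agent.H16.DI

open Pool.Agent.H8.DI Pool.Agent.H8.PL

theorem pf_su : K_SU := by
  intro V _ lt S htot hlt hinj hex
  have hirr : ∀ a, ¬ lt a a := htot.irrefl
  have htr : ∀ a b c, lt a b → lt b c → lt a c := htot.trans
  have htri : ∀ a b, lt a b ∨ a = b ∨ lt b a := fun a b => by
    have := htot.toTrichotomous.trichotomous a b
    by_cases h1 : lt a b
    · exact Or.inl h1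
    · by_cases h2 : lt b a
      · exact Or.inr (Or.inr h2)
      · exact Or.inr (Or.inl (this h1 h2))
  haveI : IsTrans V (fun a b => lt b a) := ⟨fun a b c h1 h2 => htr c b a h2 h1⟩
  haveI : Std.Irrefl (fun a b : V => lt b a) := ⟨fun a => hirr a⟩
  have hwf : WellFounded (fun a b : V => lt b a) := Finite.wellFounded_of_trans_of_irrefl _
  have huniq : ∀ a b b' : V, (lt a b ∧ ∀ z, ¬ (lt a z ∧ lt z b)) →
      (lt a b' ∧ ∀ z, ¬ (lt a z ∧ lt z b')) → b = b' := by
    intro a b b' h h'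
    rcases htri b b' with h1 | h1 | h1
    · exact absurd ⟨h.1, h1⟩ (h'.2 b)
    · exact h1
    · exact absurd ⟨h'.1, h1⟩ (h.2 b')
  have claim : ∀ a b, S a b → ∀ z, ¬ (lt a z ∧ lt z b) := by
    intro a
    induction a using hwf.induction with
    | _ a ih =>
      intro b hS c₀ hc₀
      obtain ⟨c, hc, hmax⟩ := hwf.has_min {c | lt c b} ⟨c₀, hc₀.2⟩
      have h1 : lt a c := by
        rcases htri c₀ c with h | h | h
        · exact htr _ _ _ hc₀.1 h
        · exact h ▸ hc₀.1
        · exact absurd h (hmax c₀ hc₀.2)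
      have h2 : lt c b ∧ ∀ z, ¬ (lt c z ∧ lt z b) := ⟨hc, fun z hz => hmax z hz.2 hz.1⟩
      obtain ⟨b', hS'⟩ := hex c ⟨b, hc⟩
      have h4 := ih c h1 b' hS'
      have h5 := huniq c b b' h2 ⟨hlt _ _ hS', h4⟩
      subst h5
      have h6 := hinj a c b hS hS'
      subst h6
      exact hirr _ h1
  intro a b
  constructor
  · intro h
    exact ⟨hlt a b h, claim a b h⟩
  · intro h
    obtain ⟨b', hS'⟩ := hex a ⟨b, h.1⟩
    have h2 := huniq a b b' h ⟨hlt _ _ hS', claim a b' hS'⟩
    rwa [h2]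

end Pool.Agent.H16.DI
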